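import Pool.Agent.Helper82.AH.Props

/-!
# Packet AH-CR (helper82): general position in a corner
-/

open scoped ENNReal NNReal InnerProductSpace ComplexOrder
open Filter Topology

attribute [-instance] CStarMatrix.instAlgebra CStarMatrix.instModule CStarMatrix.instSMul
  CStarMatrix.instMulAction CStarMatrix.instDistribMulAction

noncomputable section
namespace RC
universe u

namespace AHCR

theorem mrank_add_le {N : ℕ} (A B : Matrix (Fin N) (Fin N) ℂ) :
    (A + B).rank ≤ A.rank + B.rank := by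
  unfold Matrix.rank
  have h : LinearMap.range (A + B).mulVecLin ≤
      LinearMap.range A.mulVecLin ⊔ LinearMap.range B.mulVecLin := by
    rintro _ ⟨v, rfl⟩
    rw [Matrix.mulVecLin_add]
    exact Submodule.add_mem_sup ⟨v, rfl⟩ ⟨v, rfl⟩
  exact (Submodule.finrank_mono h).trans (Submodule.finrank_add_le_finrank_add_finrank _ _)

/-- The matrix of an element of `Mt N`. -/
def toM {N : ℕ} : Mt N ≃+* Matrix (Fin N) (Fin N) ℂ := CStarMatrix.ofMatrixRingEquiv.symm

theorem rkM_eq {N : ℕ} (a : Mt N) : rkM a = (toM a).rank := rfl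

theorem rkM_add_le {N : ℕ} (a b : Mt N) : rkM (a + b) ≤ rkM a + rkM b := by
  rw [rkM_eq, rkM_eq, rkM_eq, map_add]
  exact mrank_add_le _ _

theorem rkM_mul_left {N : ℕ} (a b : Mt N) : rkM (a * b) ≤ rkM a := by
  rw [rkM_eq, rkM_eq, map_mul]
  exact Matrix.rank_mul_le_left _ _

theorem rkM_mul_right {N : ℕ} (a b : Mt N) : rkM (a * b) ≤ rkM b := by
  rw [rkM_eq, rkM_eq, map_mul]
  exact Matrix.rank_mul_le_right _ _

theorem rkM_compl {N : ℕ} (p : Mt N) (hp : p * p = p) : rkM (1 - p) + rkM p ≤ N := by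
  have h : toM (1 - p) * toM p = 0 := by
    rw [← map_mul, sub_mul, one_mul, hp, sub_self, map_zero]
  have := Matrix.rank_add_rank_le_card_of_mul_eq_zero h
  rw [Fintype.card_fin] at this
  exact this

theorem norm_proj_le {N : ℕ} (p : Mt N) (h : IsStarProjection p) : ‖p‖ ≤ 1 := by
  have h1 : ‖p‖ * ‖p‖ = ‖p‖ := by
    rw [← CStarRing.norm_star_mul_self, h.isSelfAdjoint.star_eq, h.isIdempotentElem.eq]
  rcases (norm_nonneg p).eq_or_lt with h0 | h0
  · rw [← h0]; exact zero_le_one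
  · exact (mul_right_cancel₀ h0.ne' (h1.trans (one_mul _).symm)).le

/-- The algebra at one point. -/
theorem alg {R : Type*} [Ring R] (p f T mi : R) (hp : p * p = p) (hf : p * f * p = f)
    (h1 : ((1 - p) * T * (1 - p) + p) * mi = 1) (h2 : mi * ((1 - p) * T * (1 - p) + p) = 1) :
    (1 - p) * mi = mi * (1 - p) ∧
    p * (T - T * ((1 - p) * mi) * T) * p = T - T * ((1 - p) * mi) * T ∧
    (T - T * ((1 - p) * mi) * T) - f = (1 - p) * (1 - mi) + (T - (f + (1 - p)))
      - (T - (f + (1 - p))) * ((1 - p) * mi) - ((1 - p) * mi) * (T - (f + (1 - p)))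
      - (T - (f + (1 - p))) * ((1 - p) * mi) * (T - (f + (1 - p))) := by
  have hpq : p * (1 - p) = 0 := by rw [mul_sub, mul_one, hp, sub_self]
  have hqp : (1 - p) * p = 0 := by rw [sub_mul, one_mul, hp, sub_self]
  have hqq : (1 - p) * (1 - p) = 1 - p := by rw [mul_sub, hqp, mul_one, sub_zero]
  have hfq : f * (1 - p) = 0 := by rw [← hf, mul_assoc, hpq, mul_zero]
  have hqf : (1 - p) * f = 0 := by rw [← hf, mul_assoc, ← mul_assoc (1 - p), hqp, zero_mul]
  have hp1 : p = 1 - (1 - p) := (sub_sub_cancel 1 p).symm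
  set q := 1 - p with hq
  have hqm : q * (q * T * q + p) = q * T * q := by
    rw [mul_add, hqp, add_zero, ← mul_assoc, ← mul_assoc, hqq]
  have hmq : (q * T * q + p) * q = q * T * q := by
    rw [add_mul, hpq, add_zero, mul_assoc, hqq]
  set m := q * T * q + p with hm
  have hc : q * mi = mi * q := by
    calc q * mi = mi * m * (q * mi) := by rw [h2, one_mul]
      _ = mi * (m * q) * mi := by simp only [mul_assoc]
      _ = mi * (q * m) * mi := by rw [hmq, hqm]
      _ = mi * q * (m * mi) := by simp only [mul_assoc]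
      _ = mi * q := by rw [h1, mul_one]
  have hqTR : q * T * (q * mi) = q := by
    rw [← mul_assoc, ← hqm, mul_assoc, h1, mul_one]
  have hRTq : q * mi * T * q = q := by
    have : q * mi * T * q = mi * (q * T * q) := by
      rw [hc]; simp only [mul_assoc]
    rw [this, ← hmq, ← mul_assoc, h2, one_mul]
  have hqg : q * (T - T * (q * mi) * T) = 0 := by
    have : q * (T - T * (q * mi) * T) = q * T - q * T * (q * mi) * T := by
      rw [mul_sub]; simp only [mul_assoc]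
    rw [this, hqTR, sub_self]
  have hgq : (T - T * (q * mi) * T) * q = 0 := by
    have : (T - T * (q * mi) * T) * q = T * q - T * (q * mi * T * q) := by
      rw [sub_mul]; simp only [mul_assoc]
    rw [this, hRTq, sub_self]
  refine ⟨hc, ?_, ?_⟩
  · rw [hp1, mul_sub, mul_one, sub_mul, one_mul, hqg, sub_zero, hgq, sub_zero]
  · have hfR : f * (q * mi) = 0 := by rw [← mul_assoc, hfq, zero_mul]
    have hRf : q * mi * f = 0 := by rw [hc, mul_assoc, hqf, mul_zero]
    have hqR : q * (q * mi) = q * mi := by rw [← mul_assoc, hqq]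
    have hRq : q * mi * q = q * mi := by rw [hc, mul_assoc, hqq]
    obtain ⟨Δ, hΔ⟩ : ∃ Δ, Δ = T - (f + q) := ⟨_, rfl⟩
    have hT : T = f + q + Δ := by rw [hΔ]; abel
    rw [← hΔ, hT]
    have e1 : (f + q + Δ) * (q * mi) = q * mi + Δ * (q * mi) := by
      rw [add_mul, add_mul, hfR, hqR, zero_add]
    have e2 : (q * mi) * (f + q + Δ) = q * mi + (q * mi) * Δ := by
      rw [mul_add, mul_add, hRf, hRq, zero_add]
    have e3 : (f + q + Δ) * (q * mi) * (f + q + Δ) =
        q * mi + (q * mi) * Δ + (Δ * (q * mi) + Δ * (q * mi) * Δ) := by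
      rw [e1, add_mul, e2, mul_assoc Δ (q * mi) (f + q + Δ), e2, mul_add,
        ← mul_assoc Δ (q * mi) Δ]
    rw [e3, mul_sub, mul_one]
    abel

theorem ptw {R : Type*} [NormedRing R] [StarRing R] [CStarRing R] [CompleteSpace R]
    (p f T : R) (δ1 : ℝ) (hδ1 : 0 < δ1) (h14 : δ1 ≤ 1 / 4) (hp : IsStarProjection p)
    (hf : p * f * p = f) (hT : ‖T - (f + (1 - p))‖ ≤ δ1) :
    IsUnit ((1 - p) * T * (1 - p) + p) ∧
    p * (T - T * ((1 - p) * Ring.inverse ((1 - p) * T * (1 - p) + p)) * T) * p =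
      T - T * ((1 - p) * Ring.inverse ((1 - p) * T * (1 - p) + p)) * T ∧
    ‖T - T * ((1 - p) * Ring.inverse ((1 - p) * T * (1 - p) + p)) * T - f‖ ≤ 10 * δ1 := by
  have hpn : ∀ e : R, IsStarProjection e → ‖e‖ ≤ 1 := by
    intro e he
    have h1 : ‖e‖ * ‖e‖ = ‖e‖ := by
      rw [← CStarRing.norm_star_mul_self, he.isSelfAdjoint.star_eq, he.isIdempotentElem.eq]
    rcases (norm_nonneg e).eq_or_lt with h0 | h0
    · rw [← h0]; exact zero_le_one
    · exact (mul_right_cancel₀ h0.ne' (h1.trans (one_mul _).symm)).le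
  have hpp : p * p = p := hp.isIdempotentElem.eq
  have hqn : ‖1 - p‖ ≤ 1 := hpn _ hp.one_sub
  have h1n : ‖(1 : R)‖ ≤ 1 := hpn _ (IsStarProjection.one _)
  have hmx : ‖1 - ((1 - p) * T * (1 - p) + p)‖ ≤ δ1 := by
    have e : 1 - ((1 - p) * T * (1 - p) + p) = -((1 - p) * (T - (f + (1 - p))) * (1 - p)) := by
      have hpq : p * (1 - p) = 0 := by rw [mul_sub, mul_one, hpp, sub_self]
      have hqp : (1 - p) * p = 0 := by rw [sub_mul, one_mul, hpp, sub_self]
      have hqq : (1 - p) * (1 - p) = 1 - p := by rw [mul_sub, hqp, mul_one, sub_zero]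
      have hqf : (1 - p) * f = 0 := by rw [← hf, mul_assoc, ← mul_assoc (1 - p), hqp, zero_mul]
      rw [mul_sub (1 - p), mul_add (1 - p), hqf, zero_add, hqq, sub_mul _ _ (1 - p), hqq]
      abel
    rw [e, norm_neg]
    calc ‖(1 - p) * (T - (f + (1 - p))) * (1 - p)‖ ≤ 1 * δ1 * 1 :=
          (norm_mul_le _ _).trans (mul_le_mul ((norm_mul_le _ _).trans
            (mul_le_mul hqn hT (norm_nonneg _) zero_le_one)) hqn (norm_nonneg _)
            (by positivity))
      _ = δ1 := by ring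
  have hmn : ‖1 - ((1 - p) * T * (1 - p) + p)‖ < 1 := lt_of_le_of_lt hmx (by linarith)
  have hu : IsUnit ((1 - p) * T * (1 - p) + p) := by
    refine ⟨Units.oneSub _ hmn, ?_⟩
    rw [Units.val_oneSub, sub_sub_cancel]
  have h1 := Ring.mul_inverse_cancel _ hu
  have h2 := Ring.inverse_mul_cancel _ hu
  obtain ⟨m, hm⟩ : ∃ m, m = (1 - p) * T * (1 - p) + p := ⟨_, rfl⟩
  obtain ⟨mi, hmi⟩ : ∃ mi, mi = Ring.inverse ((1 - p) * T * (1 - p) + p) := ⟨_, rfl⟩
  rw [← hmi] at h1 h2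
  obtain ⟨hc, hg, hd⟩ := alg p f T mi hpp hf h1 h2
  rw [← hm] at hmx h1 h2
  rw [← hmi]
  refine ⟨hu, hg, ?_⟩
  have hw : ‖1 - mi‖ ≤ δ1 * ‖mi‖ := by
    have e : 1 - mi = -(mi * (1 - m)) := by
      rw [mul_sub, h2, mul_one, neg_sub]
    rw [e, norm_neg, mul_comm δ1]
    exact (norm_mul_le _ _).trans (mul_le_mul_of_nonneg_left hmx (norm_nonneg _))
  have hmi2 : ‖mi‖ ≤ 4 / 3 := by
    have e : ‖mi‖ ≤ ‖(1 : R)‖ + ‖1 - mi‖ := by
      have := norm_sub_le (1 : R) (1 - mi)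
      rwa [sub_sub_cancel] at this
    have : δ1 * ‖mi‖ ≤ 1 / 4 * ‖mi‖ := mul_le_mul_of_nonneg_right h14 (norm_nonneg _)
    linarith
  have hw2 : ‖1 - mi‖ ≤ 4 / 3 * δ1 := by
    refine hw.trans ?_
    rw [mul_comm]
    exact mul_le_mul_of_nonneg_right hmi2 hδ1.le
  have hR : ‖(1 - p) * mi‖ ≤ 4 / 3 :=
    (norm_mul_le _ _).trans (by
      calc ‖1 - p‖ * ‖mi‖ ≤ 1 * (4 / 3) :=
            mul_le_mul hqn hmi2 (norm_nonneg _) zero_le_one
        _ = 4 / 3 := one_mul _)
  obtain ⟨Δ, hΔ⟩ : ∃ Δ, Δ = T - (f + (1 - p)) := ⟨_, rfl⟩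
  rw [← hΔ] at hT hd
  have b1 : ‖(1 - p) * (1 - mi)‖ ≤ 4 / 3 * δ1 :=
    (norm_mul_le _ _).trans (by
      calc ‖1 - p‖ * ‖1 - mi‖ ≤ 1 * (4 / 3 * δ1) :=
            mul_le_mul hqn hw2 (norm_nonneg _) zero_le_one
        _ = 4 / 3 * δ1 := one_mul _)
  have b2 : ‖Δ * ((1 - p) * mi)‖ ≤ δ1 * (4 / 3) :=
    (norm_mul_le _ _).trans (mul_le_mul hT hR (norm_nonneg _) hδ1.le)
  have b3 : ‖((1 - p) * mi) * Δ‖ ≤ 4 / 3 * δ1 :=
    (norm_mul_le _ _).trans (mul_le_mul hR hT (norm_nonneg _) (by norm_num))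
  have b4 : ‖Δ * ((1 - p) * mi) * Δ‖ ≤ δ1 * (4 / 3) * δ1 :=
    (norm_mul_le _ _).trans (mul_le_mul b2 hT (norm_nonneg _) (by positivity))
  rw [hd]
  have t := norm_sub_le ((1 - p) * (1 - mi) + Δ - Δ * ((1 - p) * mi) - ((1 - p) * mi) * Δ)
      (Δ * ((1 - p) * mi) * Δ)
  have t2 := norm_sub_le ((1 - p) * (1 - mi) + Δ - Δ * ((1 - p) * mi)) (((1 - p) * mi) * Δ)
  have t3 := norm_sub_le ((1 - p) * (1 - mi) + Δ) (Δ * ((1 - p) * mi))
  have t4 := norm_add_le ((1 - p) * (1 - mi)) Δ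
  have s : δ1 * (4 / 3) * δ1 ≤ δ1 := by
    calc δ1 * (4 / 3) * δ1 = (4 / 3 * δ1) * δ1 := by ring
      _ ≤ 1 * δ1 := mul_le_mul_of_nonneg_right (by linarith) hδ1.le
      _ = δ1 := one_mul _
  linarith

theorem rkM_final {N : ℕ} (p T R : Mt N) (hp : IsStarProjection p) :
    rkM T + rkM p ≤ rkM (T - T * ((1 - p) * R) * T) + N := by
  have r1 : rkM T ≤ rkM (T - T * ((1 - p) * R) * T) + rkM (T * ((1 - p) * R) * T) := by
    have := rkM_add_le (T - T * ((1 - p) * R) * T) (T * ((1 - p) * R) * T)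
    rwa [sub_add_cancel] at this
  have r2 : rkM (T * ((1 - p) * R) * T) ≤ rkM (1 - p) :=
    (rkM_mul_left _ _).trans ((rkM_mul_right _ _).trans (rkM_mul_left _ _))
  have r3 := rkM_compl p hp.isIdempotentElem.eq
  omega

theorem mi_cont {D N : ℕ} {X : Set (Fin D → ℝ)} (p T : C(X, Mt N))
    (hu : ∀ x, IsUnit ((1 - p x) * T x * (1 - p x) + p x)) :
    Continuous fun x => Ring.inverse ((1 - p x) * T x * (1 - p x) + p x) := by
  have hc : Continuous fun x => (1 - p x) * T x * (1 - p x) + p x :=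
    (((continuous_const.sub p.continuous).mul T.continuous).mul
      (continuous_const.sub p.continuous)).add p.continuous
  rw [continuous_iff_continuousAt]
  intro x
  obtain ⟨u, hu⟩ := hu x
  have h := NormedRing.inverse_continuousAt u
  rw [hu] at h
  exact ContinuousAt.comp (g := Ring.inverse) (f := fun x => (1 - p x) * T x * (1 - p x) + p x)
    h hc.continuousAt

theorem g_cont {D N : ℕ} {X : Set (Fin D → ℝ)} (p T : C(X, Mt N))
    (hu : ∀ x, IsUnit ((1 - p x) * T x * (1 - p x) + p x)) :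
    Continuous fun x => T x - T x *
      ((1 - p x) * Ring.inverse ((1 - p x) * T x * (1 - p x) + p x)) * T x :=
  T.continuous.sub ((T.continuous.mul ((continuous_const.sub p.continuous).mul
    (mi_cont p T hu))).mul T.continuous)

end AHCR

open AHCR in
theorem cornerRankP (hD : DenseRankP) : CornerRankP := by
  intro D N k X hX p f δ hp hf hδ hk
  obtain ⟨δ1, hδ1, h14, h10⟩ : ∃ δ1 : ℝ, 0 < δ1 ∧ δ1 ≤ 1 / 4 ∧ δ1 ≤ δ / 10 :=
    ⟨min (δ / 10) (1 / 4), lt_min (by positivity) (by norm_num), min_le_right _ _, min_le_left _ _⟩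
  obtain ⟨T, hT, hr⟩ := hD D N k X hX (f + (1 - p)) δ1 hδ1 hk
  have hP := fun x => ptw (p x) (f x) (T x) δ1 hδ1 h14 (hp x) (DFunLike.congr_fun hf x) (hT x)
  refine ⟨⟨_, g_cont p T fun x => (hP x).1⟩, ?_, ?_, ?_⟩
  · ext1 x
    exact (hP x).2.1
  · intro x
    exact (hP x).2.2.trans (by linarith)
  · intro x
    have h1 := rkM_final (p x) (T x) (Ring.inverse ((1 - p x) * T x * (1 - p x) + p x)) (hp x)
    have h2 := hr x
    have h3 : rkM (p x) < rkM (T x - T x *
      ((1 - p x) * Ring.inverse ((1 - p x) * T x * (1 - p x) + p x)) * T x) + k := by omega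
    exact h3

end RC
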